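import Pool.Agent.H484.HH.Stm

set_option autoImplicit false

open Finset

namespace Pool.Agent.H484.HH

theorem bad_card {N : ℕ} [NeZero N] (Y : ℝ) (hY : 0 < Y) :
    ∑ r : ZMod N, (if M r < Y then (1 : ℝ) else 0) ≤ 3 * Y := by
  rw [Finset.sum_boole]
  by_cases h1 : Y ≤ 1
  · have h0 : (univ.filter fun r : ZMod N => M r < Y) = ∅ := by
      apply Finset.filter_eq_empty_iff.2
      intro r _ hr
      have h2 : (1 : ℝ) ≤ M r := le_max_left _ _
      linarith
    rw [h0, Finset.card_empty, Nat.cast_zero]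
    linarith
  · have h1' : 1 < Y := not_le.1 h1
    have hsub : (univ.filter fun r : ZMod N => M r < Y).card ≤
        (Finset.Ioo (-(⌈Y⌉₊ : ℤ)) (⌈Y⌉₊ : ℤ)).card := by
      apply Finset.card_le_card_of_injOn (fun r => r.valMinAbs)
      · intro r hr
        have hr' := (Finset.mem_filter.1 (Finset.mem_coe.1 hr)).2
        have h2 : ((r.valMinAbs.natAbs : ℕ) : ℝ) < Y := lt_of_le_of_lt (le_max_right _ _) hr'
        have h3 : r.valMinAbs.natAbs < ⌈Y⌉₊ := Nat.lt_ceil.2 h2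
        rw [Finset.coe_Ioo, Set.mem_Ioo]
        dsimp only
        omega
      · intro a _ b _ hab
        exact ZMod.injective_valMinAbs hab
    rw [Int.card_Ioo] at hsub
    have h4 : (⌈Y⌉₊ : ℝ) < Y + 1 := Nat.ceil_lt_add_one hY.le
    have h6 : 0 < ⌈Y⌉₊ := Nat.ceil_pos.2 hY
    have h5 : (univ.filter fun r : ZMod N => M r < Y).card + 1 ≤ 2 * ⌈Y⌉₊ := by omega
    have h7 : (((univ.filter fun r : ZMod N => M r < Y).card : ℕ) : ℝ) + 1 ≤ 2 * (⌈Y⌉₊ : ℝ) := by
      exact_mod_cast h5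
    linarith

theorem single_le' {ι : Type} (s : Finset ι) (f : ι → ℝ) (hf : ∀ i, 0 ≤ f i) (a : ι) (ha : a ∈ s) :
    f a ≤ ∑ i ∈ s, f i := Finset.single_le_sum (f := f) (fun i _ => hf i) ha

theorem bad_le {ι κ : Type} [Fintype ι] [Fintype κ] (B : ι → Prop) (s : Finset κ)
    (f : ι → κ → ℝ) (hf : ∀ i k, 0 ≤ f i k) (hB : ∀ i, B i → ∃ k ∈ s, f i k = 1) :
    (Nat.card {i : ι // B i} : ℝ) ≤ ∑ i : ι, ∑ k ∈ s, f i k := by
  classical
  rw [Nat.card_eq_fintype_card, Fintype.card_subtype, Finset.cast_card, Finset.sum_filter]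
  apply Finset.sum_le_sum
  intro i _
  by_cases hb : B i
  · rw [if_pos hb]
    obtain ⟨k, hk, h1⟩ := hB i hb
    have h2 := single_le' s (f i) (hf i) k hk
    linarith
  · rw [if_neg hb]
    exact Finset.sum_nonneg fun k _ => hf i k

theorem M_pos {N : ℕ} [NeZero N] (k : ZMod N) : 0 < M k :=
  lt_of_lt_of_le one_pos (le_max_left _ _)

theorem t_BAD (hAVG : S_AVG) (hHS : S_HS) : S_BAD := by
  intro N hN t T hT
  have hN0 : 0 < N := hN.out.pos
  have hNR : (0 : ℝ) < (N : ℝ) := by exact_mod_cast hN0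
  have hN1 : (1 : ℝ) ≤ (N : ℝ) := by exact_mod_cast hN.out.one_lt.le
  have hT0 : 0 < T := lt_of_lt_of_le one_pos hT
  set X : ℝ := (N : ℝ) / T with hX
  have hX0 : 0 < X := div_pos hNR hT0
  let φ : ZMod N → (Fin t → ZMod N) → ℝ := fun r k =>
    if M r * ∏ i, M (k i) < X then 1 else 0
  have hφ0 : ∀ r k, 0 ≤ φ r k := by
    intro r k
    show (0 : ℝ) ≤ if M r * ∏ i, M (k i) < X then (1 : ℝ) else 0
    split_ifs
    · exact zero_le_one
    · exact le_refl _
  have hP : ∀ k : Fin t → ZMod N, 0 < ∏ i, M (k i) := fun k =>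
    Finset.prod_pos fun i _ => M_pos (k i)
  -- the number of bad generators
  have h1 : (Nat.card {h : Fin t → (ZMod N)ˣ // ¬ good T fun i => (h i : ZMod N)} : ℝ) ≤
      ∑ h : Fin t → (ZMod N)ˣ, ∑ k ∈ univ.filter (fun k : Fin t → ZMod N => k ≠ 0),
        φ (-(∑ i, k i * (h i : ZMod N))) k := by
    refine bad_le _ _ (fun (h : Fin t → (ZMod N)ˣ) (k : Fin t → ZMod N) =>
      φ (-(∑ i, k i * (h i : ZMod N))) k) (fun h k => hφ0 _ k) ?_
    intro h hb
    unfold good at hb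
    push Not at hb
    obtain ⟨k, hk, hlt⟩ := hb
    exact ⟨k, Finset.mem_filter.2 ⟨Finset.mem_univ k, hk⟩, if_pos hlt⟩
  have h2 := hAVG N t φ hφ0
  have h3 : ∀ k : Fin t → ZMod N, ∑ r : ZMod N, φ r k ≤ 3 * X * ∏ i, (1 / M (k i)) := by
    intro k
    have h4 : ∀ r : ZMod N, φ r k = if M r < X / ∏ i, M (k i) then (1 : ℝ) else 0 := by
      intro r
      show (if M r * ∏ i, M (k i) < X then (1 : ℝ) else 0) = _
      have h5 : (M r * ∏ i, M (k i) < X) ↔ (M r < X / ∏ i, M (k i)) := (lt_div_iff₀ (hP k)).symm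
      simp only [h5]
    rw [Finset.sum_congr rfl fun r _ => h4 r]
    refine le_trans (bad_card _ (div_pos hX0 (hP k))) (le_of_eq ?_)
    rw [Finset.prod_div_distrib, Finset.prod_const_one]
    ring
  have h4 : ∑ k : Fin t → ZMod N, ∏ i, (1 / M (k i)) = (∑ c : ZMod N, 1 / M c) ^ t := by
    have := Finset.prod_univ_sum (fun _ : Fin t => (Finset.univ : Finset (ZMod N)))
      (fun _ c => 1 / M c)
    rw [Finset.prod_const, Finset.card_univ, Fintype.card_fin, Fintype.piFinset_univ] at this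
    exact this.symm
  have h5 : (∑ c : ZMod N, 1 / M c) ^ t ≤ (3 + 2 * Real.log N) ^ t :=
    pow_le_pow_left₀ (Finset.sum_nonneg fun c _ => (one_div_pos.2 (M_pos c)).le) (hHS N) t
  have h6 : ∑ k : Fin t → ZMod N, ∑ r : ZMod N, φ r k ≤ 3 * X * (3 + 2 * Real.log N) ^ t := by
    calc ∑ k : Fin t → ZMod N, ∑ r : ZMod N, φ r k
        ≤ ∑ k : Fin t → ZMod N, 3 * X * ∏ i, (1 / M (k i)) := Finset.sum_le_sum fun k _ => h3 k
      _ = 3 * X * (∑ c : ZMod N, 1 / M c) ^ t := by rw [← Finset.mul_sum, h4]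
      _ ≤ _ := mul_le_mul_of_nonneg_left h5 (by positivity)
  have h7 : (0 : ℝ) ≤ ((N : ℝ) - 1) ^ t * (2 / N) :=
    mul_nonneg (pow_nonneg (by linarith) t) (by positivity)
  have h8 : (Nat.card {h : Fin t → (ZMod N)ˣ // ¬ good T fun i => (h i : ZMod N)} : ℝ) ≤
      ((N : ℝ) - 1) ^ t * (2 / N) * (3 * X * (3 + 2 * Real.log N) ^ t) :=
    le_trans h1 (le_trans h2 (mul_le_mul_of_nonneg_left h6 h7))
  have h9 := mul_le_mul_of_nonneg_right h8 hT0.le
  refine le_trans h9 (le_of_eq ?_)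
  rw [hX]
  field_simp
  ring

end Pool.Agent.H484.HH
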